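import Pool.Agent.Helper35.GR.Defs2

/-! Package P12 (helper36): barriers for periodic solutions of graphical mean curvature flow. -/

set_option autoImplicit false

open scoped ContDiff Topology NNReal
open Set Filter MeasureTheory

namespace Pool.Agent.GR

open Pool.Agent.Helper25.GrimReaper

variable {n : ℕ}

/-! ### Boxes, periodicity -/

lemma P12_isCompact_box (lo hi : Fin n → ℝ) :
    IsCompact {x : E n | ∀ k, x k ∈ Icc (lo k) (hi k)} := by
  have h1 : IsCompact (Set.pi univ fun k => Icc (lo k) (hi k)) :=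
    isCompact_univ_pi fun k => isCompact_Icc
  have h2 := (EuclideanSpace.equiv (Fin n) ℝ).toHomeomorph.isCompact_preimage.2 h1
  refine h2.of_isClosed_subset ?_ ?_
  · have : {x : E n | ∀ k, x k ∈ Icc (lo k) (hi k)} = ⋂ k, (fun x : E n => x k) ⁻¹' Icc (lo k) (hi k) := by
      ext x; simp
    rw [this]
    exact isClosed_iInter fun k => isClosed_Icc.preimage (by fun_prop)
  · intro x hx k _
    exact hx k

lemma P12_per_nat {P : ℝ} {f : E n → ℝ} (h : Per P f) (k : Fin n) (m : ℕ) (x : E n) :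
    f (x + ((m : ℝ) * P) • ee k) = f x := by
  induction m with
  | zero => simp
  | succ m ih =>
    have e : x + (((m + 1 : ℕ) : ℝ) * P) • ee k = (x + ((m : ℝ) * P) • ee k) + P • ee k := by
      push_cast
      rw [add_assoc, ← add_smul]
      congr 2
      ring
    rw [e, h, ih]

lemma P12_per_int {P : ℝ} {f : E n → ℝ} (h : Per P f) (k : Fin n) (m : ℤ) (x : E n) :
    f (x + ((m : ℝ) * P) • ee k) = f x := by
  obtain ⟨m', rfl | rfl⟩ := m.eq_nat_or_neg
  · exact_mod_cast P12_per_nat h k m' x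
  · have h1 := P12_per_nat h k m' (x + (((-(m' : ℤ) : ℤ) : ℝ) * P) • ee k)
    rw [← h1]
    congr 1
    push_cast
    rw [add_assoc, ← add_smul]
    simp

lemma P12_per_sum {P : ℝ} {f : E n → ℝ} (h : Per P f) (m : Fin n → ℤ) (s : Finset (Fin n)) (x : E n) :
    f (x + ∑ k ∈ s, ((m k : ℝ) * P) • ee k) = f x := by
  classical
  induction s using Finset.induction_on with
  | empty => simp
  | insert a s ha ih =>
    rw [Finset.sum_insert ha, add_comm (((m a : ℝ) * P) • ee a), ← add_assoc, P12_per_int h, ih]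

/-- Reduction of the coordinates outside `S` to a period cell. -/
lemma P12_reduce {P : ℝ} (hP : 0 < P) (S : Finset (Fin n)) (x : E n) :
    ∃ x' : E n, (∀ k ∈ S, x' k = x k) ∧ (∀ k, k ∉ S → x' k ∈ Icc 0 P) ∧
      ∀ f : E n → ℝ, Per P f → f x' = f x := by
  classical
  refine ⟨x + ∑ k ∈ (Finset.univ \ S), (((-⌊x k / P⌋ : ℤ) : ℝ) * P) • ee k, ?_, ?_, ?_⟩
  · intro k hk
    have : (∑ j ∈ (Finset.univ \ S), (((-⌊x j / P⌋ : ℤ) : ℝ) * P) • ee j) k = 0 := by
      simp only [WithLp.ofLp_sum, WithLp.ofLp_smul, Finset.sum_apply, Pi.smul_apply, smul_eq_mul,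
        PiLp.single_apply]
      refine Finset.sum_eq_zero fun j hj => ?_
      have hjk : k ≠ j := by
        rintro rfl
        exact (Finset.mem_sdiff.1 hj).2 hk
      simp [hjk]
    rw [PiLp.add_apply, this, add_zero]
  · intro k hk
    have : (∑ j ∈ (Finset.univ \ S), (((-⌊x j / P⌋ : ℤ) : ℝ) * P) • ee j) k =
        ((-⌊x k / P⌋ : ℤ) : ℝ) * P := by
      simp only [WithLp.ofLp_sum, WithLp.ofLp_smul, Finset.sum_apply, Pi.smul_apply, smul_eq_mul,
        PiLp.single_apply]
      rw [Finset.sum_eq_single_of_mem k (by simp [hk])]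
      · simp
      · intro j _ hj
        simp [hj.symm]
    rw [PiLp.add_apply, this]
    have h1 := Int.floor_le (x k / P)
    have h2 := (Int.lt_floor_add_one (x k / P)).le
    rw [le_div_iff₀ hP] at h1
    rw [div_le_iff₀ hP] at h2
    constructor
    · push_cast; linarith
    · push_cast; linarith
  · intro f hf
    exact P12_per_sum hf (fun k => -⌊x k / P⌋) _ x

lemma P12_bounded {P T : ℝ} (hP : 0 < P) {u : ℝ → E n → ℝ}
    (hu : IsSolOn (Icc 0 T) univ u) (hp : ∀ t ∈ Icc 0 T, Per P (u t)) :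
    ∃ M : ℝ, 0 ≤ M ∧ ∀ t ∈ Icc 0 T, ∀ x, |u t x| ≤ M := by
  have hK : IsCompact (Icc (0 : ℝ) T ×ˢ {x : E n | ∀ k, x k ∈ Icc ((fun _ => 0 : Fin n → ℝ) k)
      ((fun _ => P : Fin n → ℝ) k)}) :=
    isCompact_Icc.prod (P12_isCompact_box _ _)
  have hc : ContinuousOn (fun p : ℝ × E n => u p.1 p.2) (Icc 0 T ×ˢ univ) := hu.cont []
  obtain ⟨M, hM⟩ := hK.exists_bound_of_continuousOn (hc.mono (prod_mono le_rfl (subset_univ _)))
  refine ⟨max M 0, le_max_right _ _, fun t ht x => ?_⟩
  obtain ⟨x', -, h2, h3⟩ := P12_reduce hP (∅ : Finset (Fin n)) x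
  rw [← h3 (u t) (hp t ht)]
  refine le_trans ?_ (le_max_left _ _)
  have := hM (t, x') ⟨ht, fun k => h2 k (by simp)⟩
  simpa [Real.norm_eq_abs] using this

/-! ### The maximum principle -/

lemma P12_deriv_nonneg {g : ℝ → ℝ} {d t T : ℝ} (ht : t ∈ Ioc 0 T)
    (hd : HasDerivWithinAt g d (Icc 0 T) t) (hmax : ∀ s ∈ Icc 0 t, g s ≤ g t) : 0 ≤ d := by
  have h0 : HasDerivWithinAt g d (Ioo 0 t) t :=
    hd.mono fun s hs => ⟨hs.1.le, hs.2.le.trans ht.2⟩
  have h1 : Tendsto (slope g t) (𝓝[Ioo 0 t] t) (𝓝 d) := by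
    have := (hasDerivWithinAt_iff_tendsto_slope.1 h0)
    rwa [show Ioo 0 t \ {t} = Ioo 0 t from sdiff_singleton_eq_self (by simp)] at this
  have : (𝓝[Ioo 0 t] t).NeBot := by
    rw [nhdsWithin_Ioo_eq_nhdsLT ht.1]
    infer_instance
  refine ge_of_tendsto h1 ?_
  filter_upwards [self_mem_nhdsWithin] with s hs
  rw [slope_def_field]
  apply div_nonneg_of_nonpos
  · linarith [hmax s ⟨hs.1.le, hs.2.le⟩]
  · linarith [hs.2]

lemma P12_max {C U K : Set (E n)} (hK : IsCompact K) (hKC : K ⊆ C) (hU : IsOpen U) (hUC : U ⊆ C)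
    {h : E n → ℝ → ℝ} {T : ℝ}
    (hc : ContinuousOn (fun p : E n × ℝ => h p.1 p.2) (K ×ˢ Icc 0 T))
    (hred : ∀ x ∈ C, (∃ x' ∈ K, ∀ t ∈ Icc 0 T, h x t = h x' t) ∨ ∀ t ∈ Icc 0 T, h x t ≤ 0)
    (h0 : ∀ x ∈ C, h x 0 ≤ 0)
    (hbd : ∀ x ∈ K, x ∉ U → ∀ t ∈ Icc 0 T, h x t ≤ 0)
    (hcrit : ∀ x ∈ U, ∀ t ∈ Ioc 0 T, IsLocalMax (fun y => h y t) x →
      (∀ s ∈ Icc 0 t, h x s ≤ h x t) → False) :
    ∀ x ∈ C, ∀ t ∈ Icc 0 T, h x t ≤ 0 := by
  by_contra hcon
  push Not at hcon
  obtain ⟨x1, hx1, t1, ht1, hpos⟩ := hcon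
  obtain ⟨x1', hx1K, hx1e⟩ : ∃ x' ∈ K, ∀ t ∈ Icc 0 T, h x1 t = h x' t := by
    rcases hred x1 hx1 with h' | h'
    · exact h'
    · exact absurd (h' t1 ht1) (not_le.2 hpos)
  have hcomp : IsCompact (K ×ˢ Icc (0 : ℝ) T) := hK.prod isCompact_Icc
  obtain ⟨⟨x, t⟩, ⟨hxK, ht⟩, hmax⟩ := hcomp.exists_isMaxOn ⟨(x1', t1), hx1K, ht1⟩ hc
  have hmax1 : h x1' t1 ≤ h x t := hmax (a := (x1', t1)) ⟨hx1K, ht1⟩
  have hpos' : 0 < h x t := by rw [← hx1e t1 ht1] at hmax1; linarith
  have hall : ∀ y ∈ C, ∀ s ∈ Icc 0 T, h y s ≤ h x t := by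
    intro y hy s hs
    rcases hred y hy with ⟨y', hy', he⟩ | h'
    · rw [he s hs]
      exact hmax (a := (y', s)) ⟨hy', hs⟩
    · exact (h' s hs).trans hpos'.le
  have hxU : x ∈ U := by
    by_contra hx
    exact absurd (hbd x hxK hx t ht) (not_le.2 hpos')
  have ht0 : 0 < t := by
    rcases eq_or_lt_of_le ht.1 with h' | h'
    · exfalso
      have h2 : t = 0 := h'.symm
      have := h0 x (hKC hxK)
      rw [h2] at hpos'
      linarith
    · exact h'
  refine hcrit x hxU t ⟨ht0, ht.2⟩ ?_ ?_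
  · filter_upwards [hU.mem_nhds hxU] with y hy
    exact hall y (hUC hy) t ht
  · intro s hs
    exact hall x (hUC hxU) s ⟨hs.1, hs.2.trans ht.2⟩

/-! ### The function `G = B cosh(δ(y-c)) exp(δ²t)` -/

/-- `B cosh(δ(y-c)) exp(δ²t)`. -/
noncomputable def P12_G (B δ c t y : ℝ) : ℝ :=
  B * Real.cosh (δ * (y - c)) * Real.exp (δ ^ 2 * t)

lemma P12_G_nonneg {B δ c t y : ℝ} (hB : 0 ≤ B) : 0 ≤ P12_G B δ c t y := by
  unfold P12_G
  have := Real.cosh_pos (δ * (y - c))
  positivity

lemma P12_G_dy (B δ c t y : ℝ) : HasDerivAt (P12_G B δ c t)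
    (B * (δ * Real.sinh (δ * (y - c))) * Real.exp (δ ^ 2 * t)) y := by
  unfold P12_G
  have h1 : HasDerivAt (fun y : ℝ => δ * (y - c)) δ y := by
    simpa using ((hasDerivAt_id y).sub_const c).const_mul δ
  refine (((h1.cosh).const_mul B).mul_const _).congr_deriv ?_
  ring

lemma P12_G_dyy (B δ c t y : ℝ) : HasDerivAt
    (fun y => B * (δ * Real.sinh (δ * (y - c))) * Real.exp (δ ^ 2 * t))
    (δ ^ 2 * P12_G B δ c t y) y := by
  unfold P12_G
  have h1 : HasDerivAt (fun y : ℝ => δ * (y - c)) δ y := by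
    simpa using ((hasDerivAt_id y).sub_const c).const_mul δ
  refine ((((h1.sinh).const_mul δ).const_mul B).mul_const _).congr_deriv ?_
  ring

lemma P12_G_dt (B δ c t y : ℝ) : HasDerivAt (fun s => P12_G B δ c s y)
    (δ ^ 2 * P12_G B δ c t y) t := by
  unfold P12_G
  have h1 : HasDerivAt (fun s : ℝ => δ ^ 2 * s) (δ ^ 2) t := by
    simpa using (hasDerivAt_id t).const_mul (δ ^ 2)
  refine ((h1.exp).const_mul (B * Real.cosh (δ * (y - c)))).congr_deriv ?_
  ring

lemma P12_G_contDiff (B δ c t : ℝ) : ContDiff ℝ 2 (P12_G B δ c t) := by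
  unfold P12_G
  fun_prop

lemma P12_G_continuous (B δ c : ℝ) : Continuous (fun p : ℝ × ℝ => P12_G B δ c p.2 p.1) := by
  unfold P12_G
  fun_prop

/-- `G_y` -/
noncomputable def P12_Gy (B δ c t y : ℝ) : ℝ :=
  B * (δ * Real.sinh (δ * (y - c))) * Real.exp (δ ^ 2 * t)

lemma P12_log_dy {B δ c t : ℝ} (hB : 0 ≤ B) (y : ℝ) :
    HasDerivAt (fun y => Real.log (1 + P12_G B δ c t y))
      (P12_Gy B δ c t y / (1 + P12_G B δ c t y)) y := by
  have h0 : 0 < 1 + P12_G B δ c t y := by
    have := P12_G_nonneg (δ := δ) (c := c) (t := t) (y := y) hB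
    linarith
  exact ((P12_G_dy B δ c t y).const_add 1).log h0.ne'

lemma P12_log_dyy {B δ c t : ℝ} (hB : 0 ≤ B) (y : ℝ) :
    HasDerivAt (fun y => P12_Gy B δ c t y / (1 + P12_G B δ c t y))
      (δ ^ 2 * P12_G B δ c t y / (1 + P12_G B δ c t y)
        - (P12_Gy B δ c t y / (1 + P12_G B δ c t y)) ^ 2) y := by
  have h0 : 0 < 1 + P12_G B δ c t y := by
    have := P12_G_nonneg (δ := δ) (c := c) (t := t) (y := y) hB
    linarith
  have h1 := (P12_G_dyy B δ c t y).div ((P12_G_dy B δ c t y).const_add 1) h0.ne'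
  refine h1.congr_deriv ?_
  unfold P12_Gy
  field_simp

lemma P12_log_contDiffAt {B δ c t : ℝ} (hB : 0 ≤ B) (y : ℝ) :
    ContDiffAt ℝ 2 (fun y => Real.log (1 + P12_G B δ c t y)) y := by
  have h0 : 0 < 1 + P12_G B δ c t y := by
    have := P12_G_nonneg (δ := δ) (c := c) (t := t) (y := y) hB
    linarith
  exact (contDiffAt_const.add (P12_G_contDiff B δ c t).contDiffAt).log h0.ne'

/-- The evolution inequality for the upper barrier. -/
lemma P12_upper_ineq [NeZero n] {i : Fin n} (hi : i ≠ 0) {B δ c t c₀ : ℝ} (hB : 0 ≤ B)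
    {x : E n} (hx : x ∈ slab n) :
    ContDiffAt ℝ 2 (fun z : E n => v₀ z + (Real.log (1 + P12_G B δ c t (z i)) + c₀)) x ∧
    mcfOperator (fun z : E n => v₀ z + (Real.log (1 + P12_G B δ c t (z i)) + c₀)) x ≤
      1 + δ ^ 2 * P12_G B δ c t (x i) / (1 + P12_G B δ c t (x i)) := by
  have hG : 0 < 1 + P12_G B δ c t (x i) := by
    have := P12_G_nonneg (δ := δ) (c := c) (t := t) (y := x i) hB
    linarith
  set l : ℝ → ℝ := fun y => Real.log (1 + P12_G B δ c t y) + c₀ with hl
  have hlc : ContDiffAt ℝ 2 l (x i) := (P12_log_contDiffAt hB (x i)).add contDiffAt_const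
  have hk := k_contDiffAt hx
  have hfun : (fun z : E n => v₀ z + (Real.log (1 + P12_G B δ c t (z i)) + c₀)) =
      fun z : E n => (fun s => -Real.log (Real.cos s)) (z 0) + l (z i) := rfl
  have hl1 : deriv l = fun y => P12_Gy B δ c t y / (1 + P12_G B δ c t y) := by
    funext y; exact ((P12_log_dy hB y).add_const c₀).deriv
  have hl2 : deriv (deriv l) (x i) = δ ^ 2 * P12_G B δ c t (x i) / (1 + P12_G B δ c t (x i))
        - (deriv l (x i)) ^ 2 := by
    rw [hl1]
    exact (P12_log_dyy hB (x i)).deriv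
  refine ⟨?_, ?_⟩
  · rw [hfun]
    exact (coord_contDiffAt (i := (0 : Fin n)) hk).add (coord_contDiffAt (i := i) hlc)
  · rw [hfun, mcf_two_coords hi.symm hk hlc, (k_deriv hx).deriv, k_deriv2 hx]
    have hS : (1 : ℝ) ≤ 1 + Real.tan (x 0) ^ 2 := by nlinarith [sq_nonneg (Real.tan (x 0))]
    have hG0 := P12_G_nonneg (δ := δ) (c := c) (t := t) (y := x i) hB
    have hr : 0 ≤ δ ^ 2 * P12_G B δ c t (x i) / (1 + P12_G B δ c t (x i)) := by positivity
    have h1 := alg_upper (S := 1 + Real.tan (x 0) ^ 2) (m := deriv (deriv l) (x i))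
      (P := deriv l (x i) ^ 2)
      (r := δ ^ 2 * P12_G B δ c t (x i) / (1 + P12_G B δ c t (x i))) hS (sq_nonneg _)
      (by rw [hl2]; linarith) (by linarith)
    have e : (1 + Real.tan (x 0) ^ 2 - 1) = Real.tan (x 0) ^ 2 := by ring
    rw [e] at h1
    exact h1

/-- `-λ⁻¹ log cos (λ s)` -/
lemma P12_k_deriv {lam s : ℝ} (hlam : 0 < lam) (hs : lam * s ∈ Ioo (-(Real.pi / 2)) (Real.pi / 2)) :
    HasDerivAt (fun s => -(1 / lam) * Real.log (Real.cos (lam * s))) (Real.tan (lam * s)) s := by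
  have hcos : 0 < Real.cos (lam * s) := Real.cos_pos_of_mem_Ioo hs
  have h1 : HasDerivAt (fun s : ℝ => lam * s) lam s := by
    simpa using (hasDerivAt_id s).const_mul lam
  have := ((h1.cos).log hcos.ne').const_mul (-(1 / lam))
  refine this.congr_deriv ?_
  rw [Real.tan_eq_sin_div_cos]
  field_simp

lemma P12_k_deriv2 {lam s : ℝ} (hlam : 0 < lam)
    (hs : lam * s ∈ Ioo (-(Real.pi / 2)) (Real.pi / 2)) :
    deriv (deriv (fun s => -(1 / lam) * Real.log (Real.cos (lam * s)))) s =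
      lam * (1 + Real.tan (lam * s) ^ 2) := by
  have hcos : 0 < Real.cos (lam * s) := Real.cos_pos_of_mem_Ioo hs
  have h1 : deriv (fun s => -(1 / lam) * Real.log (Real.cos (lam * s))) =ᶠ[𝓝 s]
      fun s => Real.tan (lam * s) := by
    have hc : ContinuousAt (fun s : ℝ => lam * s) s := by fun_prop
    filter_upwards [hc.preimage_mem_nhds (isOpen_Ioo.mem_nhds hs)] with r hr
    exact (P12_k_deriv hlam hr).deriv
  have h2 : HasDerivAt (fun s : ℝ => lam * s) lam s := by
    simpa using (hasDerivAt_id s).const_mul lam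
  have h3 := (Real.hasDerivAt_tan hcos.ne').comp s h2
  rw [h1.deriv_eq]
  change deriv (Real.tan ∘ fun s => lam * s) s = _
  rw [h3.deriv, Real.tan_eq_sin_div_cos]
  field_simp
  rw [← Real.sin_sq_add_cos_sq (lam * s)]
  ring

lemma P12_k_contDiffAt {lam s : ℝ} (hs : lam * s ∈ Ioo (-(Real.pi / 2)) (Real.pi / 2)) :
    ContDiffAt ℝ 2 (fun s => -(1 / lam) * Real.log (Real.cos (lam * s))) s := by
  have hcos : 0 < Real.cos (lam * s) := Real.cos_pos_of_mem_Ioo hs
  have h1 : ContDiffAt ℝ 2 (fun s : ℝ => Real.cos (lam * s)) s := by fun_prop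
  exact contDiffAt_const.mul (h1.log hcos.ne')

/-- The evolution inequality for the lower barrier. -/
lemma P12_lower_ineq [NeZero n] {i : Fin n} (hi : i ≠ 0) {B δ c t c₀ lam : ℝ} (hB : 0 ≤ B)
    (hlam : 0 < lam) {x : E n} (hx : lam * x 0 ∈ Ioo (-(Real.pi / 2)) (Real.pi / 2)) :
    ContDiffAt ℝ 2 (fun z : E n => -(1 / lam) * Real.log (Real.cos (lam * z 0)) +
      (-Real.log (1 + P12_G B δ c t (z i)) + c₀)) x ∧
    lam - δ ^ 2 * P12_G B δ c t (x i) / (1 + P12_G B δ c t (x i)) ≤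
    mcfOperator (fun z : E n => -(1 / lam) * Real.log (Real.cos (lam * z 0)) +
      (-Real.log (1 + P12_G B δ c t (z i)) + c₀)) x := by
  have hG : 0 < 1 + P12_G B δ c t (x i) := by
    have := P12_G_nonneg (δ := δ) (c := c) (t := t) (y := x i) hB
    linarith
  set l : ℝ → ℝ := fun y => -Real.log (1 + P12_G B δ c t y) + c₀ with hl
  set k : ℝ → ℝ := fun s => -(1 / lam) * Real.log (Real.cos (lam * s)) with hk0
  have hlc : ContDiffAt ℝ 2 l (x i) := ((P12_log_contDiffAt hB (x i)).neg).add contDiffAt_const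
  have hk : ContDiffAt ℝ 2 k (x 0) := P12_k_contDiffAt hx
  have hfun : (fun z : E n => -(1 / lam) * Real.log (Real.cos (lam * z 0)) +
      (-Real.log (1 + P12_G B δ c t (z i)) + c₀)) = fun z : E n => k (z 0) + l (z i) := rfl
  have hl1 : deriv l = fun y => -(P12_Gy B δ c t y / (1 + P12_G B δ c t y)) := by
    funext y; exact (((P12_log_dy hB y).neg).add_const c₀).deriv
  have hl2 : deriv (deriv l) (x i) = -(δ ^ 2 * P12_G B δ c t (x i) / (1 + P12_G B δ c t (x i)))
        + (deriv l (x i)) ^ 2 := by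
    rw [hl1]
    have := ((P12_log_dyy (δ := δ) (c := c) (t := t) hB (x i)).neg).deriv
    change deriv (-fun y => P12_Gy B δ c t y / (1 + P12_G B δ c t y)) (x i) = _
    rw [this]
    ring
  refine ⟨?_, ?_⟩
  · rw [hfun]
    exact (coord_contDiffAt (i := (0 : Fin n)) hk).add (coord_contDiffAt (i := i) hlc)
  · rw [hfun, mcf_two_coords hi.symm hk hlc, (P12_k_deriv hlam hx).deriv, P12_k_deriv2 hlam hx, hl2]
    have hG0 := P12_G_nonneg (δ := δ) (c := c) (t := t) (y := x i) hB
    generalize Real.tan (lam * x 0) = τ at *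
    have hμ : 0 ≤ deriv l (x i) ^ 2 := sq_nonneg _
    have hg : 0 ≤ δ ^ 2 * P12_G B δ c t (x i) / (1 + P12_G B δ c t (x i)) := by positivity
    generalize deriv l (x i) ^ 2 = μ at *
    generalize δ ^ 2 * P12_G B δ c t (x i) / (1 + P12_G B δ c t (x i)) = g at *
    have hτ : 0 ≤ τ ^ 2 := sq_nonneg _
    generalize τ ^ 2 = a at *
    have hpos : 0 < 1 + (a + μ) := by linarith
    have e1 : lam * (1 + a) + (-g + μ) - (1 + (a + μ))⁻¹ * (lam * (1 + a) * a + (-g + μ) * μ)
        = (1 + a) * (lam + (1 + lam) * μ - g) / (1 + (a + μ)) := by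
      field_simp
      ring
    rw [e1, le_div_iff₀ hpos]
    nlinarith [mul_nonneg (mul_nonneg (by linarith : (0:ℝ) ≤ 1 + a) hlam.le) hμ,
      mul_nonneg (by linarith : (0:ℝ) ≤ 1 + a) hμ, mul_nonneg hlam.le hμ,
      mul_nonneg (mul_nonneg hτ hlam.le) hμ, mul_nonneg hτ hμ, mul_nonneg hg hμ]

/-- MCF operator of a function of one coordinate. -/
lemma P12_mcf_one_coord {i : Fin n} {k : ℝ → ℝ} {x : E n} (hk : ContDiffAt ℝ 2 k (x i)) :
    mcfOperator (fun z => k (z i)) x =
      deriv (deriv k) (x i) - (1 + deriv k (x i) ^ 2)⁻¹ * (deriv (deriv k) (x i) * deriv k (x i) ^ 2)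
      := by
  have hk' := coord_contDiffAt (n := n) (x := x) (i := i) hk
  have hgrad : gradient (fun z : E n => k (z i)) x =
      deriv k (x i) • EuclideanSpace.single i (1 : ℝ) := by
    have h1 : HasFDerivAt (fun z : E n => k (z i))
      (deriv k (x i) • (EuclideanSpace.proj i : E n →L[ℝ] ℝ)) x :=
      fderiv_coord (hk.differentiableAt (by norm_num))
    rw [gradient_eq]
    simp only []
    rw [h1.fderiv]
    ext m
    rw [riesz_coord]
    simp [PiLp.single_apply, eq_comm]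
  have hi : (gradient (fun z : E n => k (z i)) x) i = deriv k (x i) := by
    rw [hgrad]; simp
  have hnorm : ‖gradient (fun z : E n => k (z i)) x‖ ^ 2 = deriv k (x i) ^ 2 := by
    rw [hgrad, norm_smul]
    simp
  rw [mcf_formula hk', hnorm]
  simp only [hess_coord hk, hi]
  congr 1
  · simp [PiLp.single_apply]
  · ring

/-- The evolution equation for the plateau barrier. -/
lemma P12_plateau_ineq [NeZero n] {s c₀ : ℝ} {x : E n}
    (hx : x 0 - s ∈ Ioo (-(Real.pi / 2)) (Real.pi / 2)) :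
    ContDiffAt ℝ 2 (fun z : E n => Real.log (Real.cos (z 0 - s)) + c₀) x ∧
    mcfOperator (fun z : E n => Real.log (Real.cos (z 0 - s)) + c₀) x = -1 := by
  have hcos : 0 < Real.cos (x 0 - s) := Real.cos_pos_of_mem_Ioo hx
  set k : ℝ → ℝ := fun r => Real.log (Real.cos (r - s)) + c₀ with hk0
  have hk : ContDiffAt ℝ 2 k (x 0) := by
    have h1 : ContDiffAt ℝ 2 (fun r : ℝ => Real.cos (r - s)) (x 0) := by fun_prop
    exact (h1.log hcos.ne').add contDiffAt_const
  have hd : ∀ r, r - s ∈ Ioo (-(Real.pi / 2)) (Real.pi / 2) →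
      HasDerivAt k (-Real.tan (r - s)) r := by
    intro r hr
    have hcos : 0 < Real.cos (r - s) := Real.cos_pos_of_mem_Ioo hr
    have h1 : HasDerivAt (fun r : ℝ => r - s) 1 r := (hasDerivAt_id r).sub_const s
    refine (((h1.cos).log hcos.ne').add_const c₀).congr_deriv ?_
    rw [Real.tan_eq_sin_div_cos]
    field_simp
  have h1 : deriv k =ᶠ[𝓝 (x 0)] fun r => -Real.tan (r - s) := by
    have hc : ContinuousAt (fun r : ℝ => r - s) (x 0) := by fun_prop
    filter_upwards [hc.preimage_mem_nhds (isOpen_Ioo.mem_nhds hx)] with r hr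
    exact (hd r hr).deriv
  have h2 : HasDerivAt (fun r : ℝ => r - s) 1 (x 0) := (hasDerivAt_id _).sub_const s
  have h3 := ((Real.hasDerivAt_tan hcos.ne').comp (x 0) h2).neg
  have h4 : deriv (deriv k) (x 0) = -(1 + Real.tan (x 0 - s) ^ 2) := by
    rw [h1.deriv_eq]
    change deriv (-(Real.tan ∘ fun r => r - s)) (x 0) = _
    rw [h3.deriv, Real.tan_eq_sin_div_cos]
    field_simp
    rw [← Real.sin_sq_add_cos_sq (x 0 - s)]
    ring
  refine ⟨coord_contDiffAt (i := (0 : Fin n)) hk, ?_⟩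
  change mcfOperator (fun z : E n => k (z 0)) x = -1
  rw [P12_mcf_one_coord hk, h4, (hd _ hx).deriv]
  have hpos : 0 < 1 + (-Real.tan (x 0 - s)) ^ 2 := by positivity
  field_simp
  ring

/-! ### Facts about solutions -/

lemma P12_contDiffAt {T : ℝ} {u : ℝ → E n → ℝ} (hu : IsSolOn (Icc 0 T) univ u) {t : ℝ}
    (ht : t ∈ Icc 0 T) (x : E n) : ContDiffAt ℝ 2 (u t) x :=
  ((hu.smooth t ht).contDiffAt univ_mem).of_le (by norm_cast)

lemma P12_time {T : ℝ} {u : ℝ → E n → ℝ} (hu : IsSolOn (Icc 0 T) univ u) {t : ℝ}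
    (ht : t ∈ Icc 0 T) (x : E n) :
    HasDerivWithinAt (fun s => u s x) (mcfOperator (u t) x) (Icc 0 T) t := by
  rw [mcfOperator_eq_Fop (P12_contDiffAt hu ht x)]
  exact hu.deriv [] t ht x (mem_univ x)

lemma P12_cont {T : ℝ} {u : ℝ → E n → ℝ} (hu : IsSolOn (Icc 0 T) univ u) (K : Set (E n)) :
    ContinuousOn (fun p : E n × ℝ => u p.2 p.1) (K ×ˢ Icc 0 T) := by
  have h1 : ContinuousOn (fun p : ℝ × E n => u p.1 p.2) (Icc 0 T ×ˢ univ) := hu.cont []
  exact ContinuousOn.comp (g := fun p : ℝ × E n => u p.1 p.2) (f := fun p : E n × ℝ => (p.2, p.1))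
    h1 (by fun_prop) (fun p hp => ⟨hp.2, mem_univ _⟩)

lemma P12_logG_nonneg {B δ c t y : ℝ} (hB : 0 ≤ B) : 0 ≤ Real.log (1 + P12_G B δ c t y) := by
  apply Real.log_nonneg
  have := P12_G_nonneg (δ := δ) (c := c) (t := t) (y := y) hB
  linarith

lemma P12_logG_large {B δ : ℝ} (c : ℝ) (hB : 0 < B) (hδ : 0 < δ) (A : ℝ) :
    ∃ r : ℝ, ∀ y, r < |y| → ∀ t, 0 ≤ t → A ≤ Real.log (1 + P12_G B δ c t y) := by
  refine ⟨|c| + Real.exp A / (B * δ), fun y hy t ht => ?_⟩
  have h1 : Real.exp A / (B * δ) ≤ |y - c| := by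
    have := abs_sub_abs_le_abs_sub y c
    linarith
  have h2 : |δ * (y - c)| ≤ Real.cosh (δ * (y - c)) := by
    rw [← Real.cosh_abs]
    exact (Real.self_le_sinh_iff.2 (abs_nonneg _)).trans (Real.sinh_lt_cosh _).le
  have h3 : 1 ≤ Real.exp (δ ^ 2 * t) := Real.one_le_exp (by positivity)
  have h4 : Real.exp A ≤ P12_G B δ c t y := by
    unfold P12_G
    have h5 : Real.exp A ≤ B * Real.cosh (δ * (y - c)) := by
      rw [div_le_iff₀ (by positivity)] at h1
      rw [abs_mul, abs_of_pos hδ] at h2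
      nlinarith
    have h6 : 0 ≤ B * Real.cosh (δ * (y - c)) := (Real.exp_pos A).le.trans h5
    nlinarith
  calc A = Real.log (Real.exp A) := (Real.log_exp A).symm
    _ ≤ Real.log (1 + P12_G B δ c t y) :=
      Real.log_le_log (Real.exp_pos A) (by linarith)

lemma P12_logG_cont (B δ c : ℝ) (hB : 0 ≤ B) (i : Fin n) (s : Set (E n × ℝ)) :
    ContinuousOn (fun p : E n × ℝ => Real.log (1 + P12_G B δ c p.2 (p.1 i))) s := by
  have h1 : Continuous (fun p : E n × ℝ => P12_G B δ c p.2 (p.1 i)) := by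
    have h2 : Continuous (fun p : E n × ℝ => ((p.1 i, p.2) : ℝ × ℝ)) := by fun_prop
    exact (P12_G_continuous B δ c).comp h2
  have h3 : Continuous (fun p : E n × ℝ => 1 + P12_G B δ c p.2 (p.1 i)) := continuous_const.add h1
  refine (h3.log fun p => ne_of_gt ?_).continuousOn
  have := P12_G_nonneg (δ := δ) (c := c) (t := p.2) (y := p.1 i) hB
  linarith

/-- `-log cos` is large close to `±π/2`. -/
lemma P12_logcos_large {A : ℝ} (hA : 0 ≤ A) : ∃ r : ℝ, 0 ≤ r ∧ r < Real.pi / 2 ∧
    ∀ s, r < |s| → |s| < Real.pi / 2 → A ≤ -Real.log (Real.cos s) := by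
  have h1 : 0 < Real.exp (-A) := Real.exp_pos _
  have h2 : Real.exp (-A) ≤ 1 := Real.exp_le_one_iff.2 (by linarith)
  refine ⟨Real.arccos (Real.exp (-A)), Real.arccos_nonneg _, Real.arccos_lt_pi_div_two.2 h1, ?_⟩
  intro s hs hs2
  have h3 : Real.cos s ≤ Real.exp (-A) := by
    rw [← Real.cos_abs, ← Real.cos_arccos (by linarith : (-1 : ℝ) ≤ Real.exp (-A)) h2]
    refine Real.cos_le_cos_of_nonneg_of_le_pi (Real.arccos_nonneg _) ?_ hs.le
    linarith [Real.pi_pos]
  have h4 : 0 < Real.cos s := Real.cos_pos_of_mem_Ioo (abs_lt.1 hs2)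
  have := Real.log_le_log h4 h3
  rw [Real.log_exp] at this
  linarith

/-! ### Upper barrier -/

lemma P12_upper_pos [NeZero n] {P T : ℝ} (hP : 0 < P) {u : ℝ → E n → ℝ}
    (hu : IsSolOn (Icc 0 T) univ u) (hp : ∀ t ∈ Icc 0 T, Per P (u t)) {i : Fin n} (hi : i ≠ 0)
    {B δ c ε : ℝ} (hB : 0 < B) (hδ : 0 < δ)
    (h0 : ∀ x ∈ slab n, u 0 x ≤ v₀ x + ε + Real.log (1 + P12_G B δ c 0 (x i)))
    {σ : ℝ} (hσ : 0 < σ) :
    ∀ x ∈ slab n, ∀ t ∈ Icc 0 T, u t x -
      (v₀ x + t + ε + Real.log (1 + P12_G B δ c t (x i)) + σ * t) ≤ 0 := by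
  classical
  obtain ⟨M, hM0, hM⟩ := P12_bounded hP hu hp
  obtain ⟨r0, hr00, hr0, hr0'⟩ := P12_logcos_large (A := M + |ε|) (by positivity)
  obtain ⟨r1, hr1⟩ := P12_logG_large (B := B) (δ := δ) c hB hδ (M + |ε|)
  set lo : Fin n → ℝ := fun k => if k = 0 then -r0 else if k = i then -r1 else 0 with hlo
  set hi' : Fin n → ℝ := fun k => if k = 0 then r0 else if k = i then r1 else P with hhi
  have hKs : {x : E n | ∀ k, x k ∈ Icc (lo k) (hi' k)} ⊆ slab n := by
    intro x hx
    have := hx 0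
    simp only [hlo, hhi, if_true] at this
    exact ⟨by linarith [this.1], by linarith [this.2]⟩
  have hv : ∀ x ∈ slab n, 0 ≤ v₀ x := by
    intro x hx
    have : 0 < Real.cos (x 0) := Real.cos_pos_of_mem_Ioo hx
    have := Real.log_nonpos this.le (Real.cos_le_one _)
    unfold v₀
    linarith
  refine P12_max (C := slab n) (U := slab n) (P12_isCompact_box lo hi') hKs (isOpen_slab' n)
    le_rfl ?_ ?_ ?_ ?_ ?_
  · have c1 := P12_cont hu {x : E n | ∀ k, x k ∈ Icc (lo k) (hi' k)}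
    have c2 : ContinuousOn (fun p : E n × ℝ => v₀ p.1)
        ({x : E n | ∀ k, x k ∈ Icc (lo k) (hi' k)} ×ˢ Icc 0 T) :=
      (v₀_continuousOn n).comp continuousOn_fst (fun p hp => hKs hp.1)
    have c4 := P12_logG_cont B δ c hB.le i
      ({x : E n | ∀ k, x k ∈ Icc (lo k) (hi' k)} ×ˢ Icc 0 T)
    exact c1.sub ((((c2.add continuousOn_snd).add (continuousOn_const (c := ε))).add c4).add
        ((continuousOn_const (c := σ)).mul continuousOn_snd))
  · intro x hx
    by_cases hx0 : r0 < |x 0|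
    · right
      intro t ht
      have h1 := hr0' (x 0) hx0 (abs_lt.2 ⟨hx.1, hx.2⟩)
      have h2 := (abs_le.1 (hM t ht x)).2
      have h3 := P12_logG_nonneg (δ := δ) (c := c) (t := t) (y := x i) hB.le
      have h4 := neg_abs_le ε
      have h5 : 0 ≤ σ * t := mul_nonneg hσ.le ht.1
      have h6 := ht.1
      unfold v₀
      linarith
    by_cases hxi : r1 < |x i|
    · right
      intro t ht
      have h1 := hr1 (x i) hxi t ht.1
      have h2 := (abs_le.1 (hM t ht x)).2
      have h3 := hv x hx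
      have h4 := neg_abs_le ε
      have h5 : 0 ≤ σ * t := mul_nonneg hσ.le ht.1
      have h6 := ht.1
      linarith
    · left
      push Not at hx0 hxi
      obtain ⟨x', h1, h2, h3⟩ := P12_reduce hP ({0, i} : Finset (Fin n)) x
      have e0 : x' 0 = x 0 := h1 0 (by simp)
      have ei : x' i = x i := h1 i (by simp)
      refine ⟨x', ?_, ?_⟩
      · intro k
        simp only [hlo, hhi]
        by_cases hk0 : k = 0
        · subst hk0
          simp only [if_true]
          rw [e0]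
          exact abs_le.1 hx0
        · by_cases hki : k = i
          · subst hki
            simp only [if_true, if_neg hk0]
            rw [ei]
            exact abs_le.1 hxi
          · simp only [if_neg hk0, if_neg hki]
            exact h2 k (by simp [hk0, hki])
      · intro t ht
        have h4 := h3 (u t) (hp t ht)
        simp only [v₀, e0, ei, h4]
  · intro x hx
    have := h0 x hx
    simp only [add_zero, mul_zero]
    linarith
  · intro x hx hx'
    exact absurd (hKs hx) hx'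
  · intro y hy s hs hmax htime
    have hs' : s ∈ Icc 0 T := ⟨hs.1.le, hs.2⟩
    obtain ⟨b1, b2⟩ := P12_upper_ineq hi (B := B) (δ := δ) (c := c) (t := s)
      (c₀ := s + ε + σ * s) hB.le hy
    have hmax' : IsLocalMax (fun z => u s z -
        (v₀ z + (Real.log (1 + P12_G B δ c s (z i)) + (s + ε + σ * s)))) y := by
      refine hmax.congr ?_
      exact Eventually.of_forall fun z => by ring
    have h1 := mcf_le_of_isLocalMax (P12_contDiffAt hu hs' y) b1 hmax'
    have hut := P12_time hu hs' y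
    have hGt := P12_G_dt B δ c s (y i)
    have hG : 0 < 1 + P12_G B δ c s (y i) := by
      have := P12_G_nonneg (δ := δ) (c := c) (t := s) (y := y i) hB.le
      linarith
    have hlt := (hGt.const_add 1).log hG.ne'
    have hφt : HasDerivAt (fun r => v₀ y + r + ε + Real.log (1 + P12_G B δ c r (y i)) + σ * r)
        (1 + δ ^ 2 * P12_G B δ c s (y i) / (1 + P12_G B δ c s (y i)) + σ) s := by
      have h2 := ((((hasDerivAt_id s).const_add (v₀ y)).add_const ε).add hlt).add
        ((hasDerivAt_id s).const_mul σ)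
      refine h2.congr_deriv ?_
      ring
    have h3 := P12_deriv_nonneg hs (hut.sub hφt.hasDerivWithinAt) htime
    linarith

/-- Passage `σ → 0`. -/
lemma P12_sigma {a b t : ℝ} (ht : 0 ≤ t) (h : ∀ σ : ℝ, 0 < σ → a ≤ b + σ * t) : a ≤ b := by
  refine le_of_forall_pos_le_add fun η hη => ?_
  have h1 := h (η / (t + 1)) (by positivity)
  have h2 : η / (t + 1) * t ≤ η := by
    rw [div_mul_eq_mul_div, div_le_iff₀ (by linarith)]
    nlinarith
  linarith

/-- Passage `B → 0`. -/
lemma P12_Bzero {δ c t y : ℝ} {a b : ℝ}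
    (h : ∀ B : ℝ, 0 < B → a ≤ b + Real.log (1 + P12_G B δ c t y)) :
    a ≤ b + Real.log (1 + P12_G 0 δ c t y) := by
  have e0 : P12_G 0 δ c t y = 0 := by simp [P12_G]
  rw [e0]
  simp only [add_zero, Real.log_one]
  refine le_of_forall_pos_le_add fun η hη => ?_
  set D := Real.cosh (δ * (y - c)) * Real.exp (δ ^ 2 * t) with hD
  have hDpos : 0 < D := mul_pos (Real.cosh_pos _) (Real.exp_pos _)
  have h1 := h ((Real.exp η - 1) / D) (div_pos (by linarith [Real.add_one_lt_exp hη.ne']) hDpos)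
  have e1 : P12_G ((Real.exp η - 1) / D) δ c t y = Real.exp η - 1 := by
    unfold P12_G
    rw [mul_assoc, ← hD]
    field_simp
  rw [e1] at h1
  have e2 : (1 : ℝ) + (Real.exp η - 1) = Real.exp η := by ring
  rw [e2, Real.log_exp] at h1
  exact h1

theorem upper_barrier [NeZero n] {P T : ℝ} (hP : 0 < P) {u : ℝ → E n → ℝ}
    (hu : IsSolOn (Icc 0 T) univ u) (hp : ∀ t ∈ Icc 0 T, Per P (u t)) {i : Fin n} (hi : i ≠ 0)
    {B δ c ε : ℝ} (hB : 0 ≤ B) (hδ : 0 < δ)
    (h0 : ∀ x ∈ slab n, u 0 x ≤ v₀ x + ε + Real.log (1 + B * Real.cosh (δ * (x i - c)))) :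
    ∀ t ∈ Icc 0 T, ∀ x ∈ slab n, u t x ≤ v₀ x + t + ε +
      Real.log (1 + B * Real.cosh (δ * (x i - c)) * Real.exp (δ ^ 2 * t)) := by
  intro t ht x hx
  have e0 : ∀ B y, P12_G B δ c 0 y = B * Real.cosh (δ * (y - c)) := by
    intro B y; simp [P12_G]
  change u t x ≤ v₀ x + t + ε + Real.log (1 + P12_G B δ c t (x i))
  rcases eq_or_lt_of_le hB with hB0 | hBpos
  · subst hB0
    refine P12_Bzero fun B' hB' => P12_sigma ht.1 fun σ hσ => ?_
    have := P12_upper_pos hP hu hp hi (B := B') (δ := δ) (c := c) (ε := ε) hB' hδ ?_ hσ x hx t ht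
    · linarith
    · intro y hy
      have h1 := h0 y hy
      have h2 := P12_logG_nonneg (B := B') (δ := δ) (c := c) (t := 0) (y := y i) hB'.le
      simp only [zero_mul, add_zero, Real.log_one] at h1
      linarith
  · refine P12_sigma ht.1 fun σ hσ => ?_
    have := P12_upper_pos hP hu hp hi (B := B) (δ := δ) (c := c) (ε := ε) hBpos hδ ?_ hσ x hx t ht
    · linarith
    · intro y hy
      rw [e0]
      exact h0 y hy

/-! ### Lower barrier -/

lemma P12_lower_pos [NeZero n] {P T : ℝ} (hP : 0 < P) {u : ℝ → E n → ℝ}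
    (hu : IsSolOn (Icc 0 T) univ u) (hp : ∀ t ∈ Icc 0 T, Per P (u t)) {i : Fin n} (hi : i ≠ 0)
    {B δ c ε lam a : ℝ} (hB : 0 < B) (hδ : 0 < δ) (hlam : 0 < lam)
    (ha : 0 < a) (hla : lam * a < Real.pi / 2)
    (h0 : ∀ x : E n, |x 0| ≤ a → -(1 / lam) * Real.log (Real.cos (lam * x 0)) - ε
      - Real.log (1 + P12_G B δ c 0 (x i)) ≤ u 0 x)
    (hlat : ∀ t ∈ Icc 0 T, ∀ x : E n, |x 0| = a →
      -(1 / lam) * Real.log (Real.cos (lam * a)) + lam * t - ε ≤ u t x)
    {σ : ℝ} (hσ : 0 < σ) :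
    ∀ x ∈ {x : E n | |x 0| ≤ a}, ∀ t ∈ Icc 0 T,
      (-(1 / lam) * Real.log (Real.cos (lam * x 0)) + lam * t - ε
      - Real.log (1 + P12_G B δ c t (x i)) - σ * t) - u t x ≤ 0 := by
  classical
  obtain ⟨M, hM0, hM⟩ := P12_bounded hP hu hp
  have hin : ∀ s : ℝ, |s| ≤ a → lam * s ∈ Ioo (-(Real.pi / 2)) (Real.pi / 2) := by
    intro s hs
    have h1 := abs_le.1 hs
    constructor <;> nlinarith
  -- bound of `k`
  have hkb : ∀ s : ℝ, |s| ≤ a → -(1 / lam) * Real.log (Real.cos (lam * s)) ≤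
      -(1 / lam) * Real.log (Real.cos (lam * a)) := by
    intro s hs
    have h1 : Real.cos (lam * a) ≤ Real.cos (lam * s) := by
      rw [← Real.cos_abs (lam * s), abs_mul, abs_of_pos hlam]
      refine Real.cos_le_cos_of_nonneg_of_le_pi (by positivity) ?_ (by nlinarith)
      linarith [Real.pi_pos]
    have h2 : 0 < Real.cos (lam * a) :=
      Real.cos_pos_of_mem_Ioo (hin a (by rw [abs_of_pos ha]))
    have h3 := Real.log_le_log h2 h1
    have h4 : 0 < 1 / lam := by positivity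
    nlinarith
  set k₁ := -(1 / lam) * Real.log (Real.cos (lam * a)) with hk₁
  obtain ⟨r1, hr1⟩ := P12_logG_large (B := B) (δ := δ) c hB hδ (M + |ε| + |k₁| + lam * |T|)
  set lo : Fin n → ℝ := fun k => if k = 0 then -a else if k = i then -r1 else 0 with hlo
  set hi' : Fin n → ℝ := fun k => if k = 0 then a else if k = i then r1 else P with hhi
  have hKs : {x : E n | ∀ k, x k ∈ Icc (lo k) (hi' k)} ⊆ {x : E n | |x 0| ≤ a} := by
    intro x hx
    have := hx 0
    simp only [hlo, hhi, if_true] at this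
    exact abs_le.2 this
  have hUo : IsOpen {x : E n | |x 0| < a} := by
    have : Continuous (fun x : E n => |x 0|) := by fun_prop
    exact isOpen_Iio.preimage this
  refine P12_max (C := {x : E n | |x 0| ≤ a}) (U := {x : E n | |x 0| < a})
    (P12_isCompact_box lo hi') hKs hUo (fun x (hx : |x 0| < a) => hx.le) ?_ ?_ ?_ ?_ ?_
  · have c1 := P12_cont hu {x : E n | ∀ k, x k ∈ Icc (lo k) (hi' k)}
    have c2 : ContinuousOn (fun p : E n × ℝ => -(1 / lam) * Real.log (Real.cos (lam * p.1 0)))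
        ({x : E n | ∀ k, x k ∈ Icc (lo k) (hi' k)} ×ˢ Icc 0 T) := by
      refine continuousOn_const.mul (ContinuousOn.log (by fun_prop) fun p hp => ?_)
      exact (Real.cos_pos_of_mem_Ioo (hin _ (hKs hp.1))).ne'
    have c4 := P12_logG_cont B δ c hB.le i
      ({x : E n | ∀ k, x k ∈ Icc (lo k) (hi' k)} ×ˢ Icc 0 T)
    exact ((((c2.add ((continuousOn_const (c := lam)).mul continuousOn_snd)).sub
      (continuousOn_const (c := ε))).sub c4).sub
        ((continuousOn_const (c := σ)).mul continuousOn_snd)).sub c1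
  · intro x hx
    by_cases hxi : r1 < |x i|
    · right
      intro t ht
      have h1 := hr1 (x i) hxi t ht.1
      have h2 := (abs_le.1 (hM t ht x)).1
      have h3 := hkb (x 0) hx
      have h4 := neg_abs_le ε
      have h5 : 0 ≤ σ * t := mul_nonneg hσ.le ht.1
      have h6 := le_abs_self k₁
      have h7 : lam * t ≤ lam * |T| :=
        mul_le_mul_of_nonneg_left (ht.2.trans (le_abs_self T)) hlam.le
      linarith
    · left
      push Not at hxi
      obtain ⟨x', h1, h2, h3⟩ := P12_reduce hP ({0, i} : Finset (Fin n)) x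
      have e0 : x' 0 = x 0 := h1 0 (by simp)
      have ei : x' i = x i := h1 i (by simp)
      refine ⟨x', ?_, ?_⟩
      · intro k
        simp only [hlo, hhi]
        by_cases hk0 : k = 0
        · subst hk0
          simp only [if_true]
          rw [e0]
          exact abs_le.1 hx
        · by_cases hki : k = i
          · subst hki
            simp only [if_true, if_neg hk0]
            rw [ei]
            exact abs_le.1 hxi
          · simp only [if_neg hk0, if_neg hki]
            exact h2 k (by simp [hk0, hki])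
      · intro t ht
        have h4 := h3 (u t) (hp t ht)
        simp only [e0, ei, h4]
  · intro x hx
    have := h0 x hx
    simp only [add_zero, mul_zero]
    linarith
  · intro x hx hx' t ht
    have hxa : |x 0| = a := le_antisymm (hKs hx) (not_lt.1 hx')
    have h1 := hlat t ht x hxa
    have h2 := hkb (x 0) (hKs hx)
    have h3 := P12_logG_nonneg (δ := δ) (c := c) (t := t) (y := x i) hB.le
    have h5 : 0 ≤ σ * t := mul_nonneg hσ.le ht.1
    linarith
  · intro y hy s hs hmax htime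
    have hs' : s ∈ Icc 0 T := ⟨hs.1.le, hs.2⟩
    obtain ⟨b1, b2⟩ := P12_lower_ineq hi (B := B) (δ := δ) (c := c) (t := s)
      (c₀ := lam * s - ε - σ * s) hB.le hlam (x := y) (hin _ (le_of_lt hy))
    have hmax' : IsLocalMax (fun z : E n => (-(1 / lam) * Real.log (Real.cos (lam * z 0)) +
      (-Real.log (1 + P12_G B δ c s (z i)) + (lam * s - ε - σ * s))) - u s z) y := by
      refine hmax.congr ?_
      exact Eventually.of_forall fun z => by ring
    have h1 := mcf_le_of_isLocalMax b1 (P12_contDiffAt hu hs' y) hmax'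
    have hut := P12_time hu hs' y
    have hGt := P12_G_dt B δ c s (y i)
    have hG : 0 < 1 + P12_G B δ c s (y i) := by
      have := P12_G_nonneg (δ := δ) (c := c) (t := s) (y := y i) hB.le
      linarith
    have hlt := (hGt.const_add 1).log hG.ne'
    have hφt : HasDerivAt (fun r => -(1 / lam) * Real.log (Real.cos (lam * y 0)) + lam * r - ε
        - Real.log (1 + P12_G B δ c r (y i)) - σ * r)
        (lam - δ ^ 2 * P12_G B δ c s (y i) / (1 + P12_G B δ c s (y i)) - σ) s := by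
      have h2 := (((((hasDerivAt_id s).const_mul lam).const_add
        (-(1 / lam) * Real.log (Real.cos (lam * y 0)))).sub_const ε).sub hlt).sub
        ((hasDerivAt_id s).const_mul σ)
      refine h2.congr_deriv ?_
      ring
    have h3 := P12_deriv_nonneg hs (hφt.hasDerivWithinAt.sub hut) htime
    linarith

theorem lower_barrier [NeZero n] {P T : ℝ} (hP : 0 < P) {u : ℝ → E n → ℝ}
    (hu : IsSolOn (Icc 0 T) univ u) (hp : ∀ t ∈ Icc 0 T, Per P (u t)) {i : Fin n} (hi : i ≠ 0)
    {B δ c ε lam a : ℝ} (hB : 0 ≤ B) (hδ : 0 < δ) (hlam : 0 < lam) (hlam1 : lam ≤ 1)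
    (ha : 0 < a) (hla : lam * a < Real.pi / 2)
    (h0 : ∀ x : E n, |x 0| ≤ a → -(1 / lam) * Real.log (Real.cos (lam * x 0)) - ε
      - Real.log (1 + B * Real.cosh (δ * (x i - c))) ≤ u 0 x)
    (hlat : ∀ t ∈ Icc 0 T, ∀ x : E n, |x 0| = a →
      -(1 / lam) * Real.log (Real.cos (lam * a)) + lam * t - ε ≤ u t x) :
    ∀ t ∈ Icc 0 T, ∀ x : E n, |x 0| ≤ a →
      -(1 / lam) * Real.log (Real.cos (lam * x 0)) + lam * t - ε
      - Real.log (1 + B * Real.cosh (δ * (x i - c)) * Real.exp (δ ^ 2 * t)) ≤ u t x := by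
  have _ := hlam1
  intro t ht x hx
  have e0 : ∀ B y, P12_G B δ c 0 y = B * Real.cosh (δ * (y - c)) := by
    intro B y; simp [P12_G]
  change -(1 / lam) * Real.log (Real.cos (lam * x 0)) + lam * t - ε
      - Real.log (1 + P12_G B δ c t (x i)) ≤ u t x
  suffices hs : -(1 / lam) * Real.log (Real.cos (lam * x 0)) + lam * t - ε ≤
      u t x + Real.log (1 + P12_G B δ c t (x i)) by linarith
  rcases eq_or_lt_of_le hB with hB0 | hBpos
  · subst hB0
    refine P12_Bzero fun B' hB' => P12_sigma ht.1 fun σ hσ => ?_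
    have := P12_lower_pos hP hu hp hi (B := B') (δ := δ) (c := c) (ε := ε) hB' hδ hlam ha hla
      ?_ hlat hσ x hx t ht
    · linarith
    · intro y hy
      have h1 := h0 y hy
      have h2 := P12_logG_nonneg (B := B') (δ := δ) (c := c) (t := 0) (y := y i) hB'.le
      simp only [zero_mul, add_zero, Real.log_one] at h1
      linarith
  · refine P12_sigma ht.1 fun σ hσ => ?_
    have := P12_lower_pos hP hu hp hi (B := B) (δ := δ) (c := c) (ε := ε) hBpos hδ hlam ha hla
      ?_ hlat hσ x hx t ht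
    · linarith
    · intro y hy
      rw [e0]
      exact h0 y hy

/-! ### Plateau barrier -/

theorem plateau_barrier [NeZero n] {P T : ℝ} (hP : 0 < P) {u : ℝ → E n → ℝ}
    (hu : IsSolOn (Icc 0 T) univ u) (hp : ∀ t ∈ Icc 0 T, Per P (u t)) {s c : ℝ}
    (h0 : ∀ x : E n, |x 0 - s| ≤ Real.pi / 2 → c ≤ u 0 x) :
    ∀ t ∈ Icc 0 T, ∀ x : E n, |x 0 - s| < Real.pi / 2 →
      c + Real.log (Real.cos (x 0 - s)) - t ≤ u t x := by
  classical
  intro t ht x hx
  suffices hs : c + Real.log (Real.cos (x 0 - s)) ≤ u t x + t by linarith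
  refine P12_sigma ht.1 fun σ hσ => ?_
  obtain ⟨M, hM0, hM⟩ := P12_bounded hP hu hp
  obtain ⟨r0, hr00, hr0, hr0'⟩ := P12_logcos_large (A := M + |c|) (by positivity)
  set lo : Fin n → ℝ := fun k => if k = 0 then s - r0 else 0 with hlo
  set hi' : Fin n → ℝ := fun k => if k = 0 then s + r0 else P with hhi
  set C : Set (E n) := {x | |x 0 - s| < Real.pi / 2} with hC
  have hKs : {x : E n | ∀ k, x k ∈ Icc (lo k) (hi' k)} ⊆ C := by
    intro x hx
    have := hx 0
    simp only [hlo, hhi, if_true] at this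
    obtain ⟨h1, h2⟩ := this
    change |x 0 - s| < Real.pi / 2
    rw [abs_lt]
    constructor <;> linarith
  have hCo : IsOpen C := by
    have : Continuous (fun x : E n => |x 0 - s|) := by fun_prop
    exact isOpen_Iio.preimage this
  have key : ∀ x ∈ C, ∀ t ∈ Icc 0 T,
      (c + Real.log (Real.cos (x 0 - s)) - t - σ * t) - u t x ≤ 0 := by
    refine P12_max (C := C) (U := C) (P12_isCompact_box lo hi') hKs hCo le_rfl ?_ ?_ ?_ ?_ ?_
    · have c1 := P12_cont hu {x : E n | ∀ k, x k ∈ Icc (lo k) (hi' k)}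
      have c2 : ContinuousOn (fun p : E n × ℝ => Real.log (Real.cos (p.1 0 - s)))
          ({x : E n | ∀ k, x k ∈ Icc (lo k) (hi' k)} ×ˢ Icc 0 T) := by
        refine ContinuousOn.log (by fun_prop) fun p hp => ?_
        exact (Real.cos_pos_of_mem_Ioo (abs_lt.1 (hKs hp.1))).ne'
      exact ((((continuousOn_const (c := c)).add c2).sub continuousOn_snd).sub
          ((continuousOn_const (c := σ)).mul continuousOn_snd)).sub c1
    · intro x hx
      by_cases hx0 : r0 < |x 0 - s|
      · right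
        intro t ht
        have h1 := hr0' (x 0 - s) hx0 hx
        have h2 := (abs_le.1 (hM t ht x)).1
        have h4 := le_abs_self c
        have h5 : 0 ≤ σ * t := mul_nonneg hσ.le ht.1
        have h6 := ht.1
        linarith
      · left
        push Not at hx0
        obtain ⟨x', h1, h2, h3⟩ := P12_reduce hP ({0} : Finset (Fin n)) x
        have e0 : x' 0 = x 0 := h1 0 (by simp)
        refine ⟨x', ?_, ?_⟩
        · intro k
          simp only [hlo, hhi]
          by_cases hk0 : k = 0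
          · subst hk0
            simp only [if_true]
            rw [e0]
            have := abs_le.1 hx0
            exact ⟨by linarith [this.1], by linarith [this.2]⟩
          · simp only [if_neg hk0]
            exact h2 k (by simp [hk0])
        · intro t ht
          have h4 := h3 (u t) (hp t ht)
          simp only [e0, h4]
    · intro x hx
      have h1 := h0 x (le_of_lt hx)
      have h2 : Real.log (Real.cos (x 0 - s)) ≤ 0 := by
        have : 0 < Real.cos (x 0 - s) := Real.cos_pos_of_mem_Ioo (abs_lt.1 hx)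
        exact Real.log_nonpos this.le (Real.cos_le_one _)
      simp only [sub_zero, mul_zero]
      linarith
    · intro x hx hx'
      exact absurd (hKs hx) hx'
    · intro y hy r hr hmax htime
      have hr' : r ∈ Icc 0 T := ⟨hr.1.le, hr.2⟩
      obtain ⟨b1, b2⟩ := P12_plateau_ineq (s := s) (c₀ := c - r - σ * r) (x := y) (abs_lt.1 hy)
      have hmax' : IsLocalMax (fun z : E n => (Real.log (Real.cos (z 0 - s)) + (c - r - σ * r))
          - u r z) y := by
        refine hmax.congr ?_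
        exact Eventually.of_forall fun z => by ring
      have h1 := mcf_le_of_isLocalMax b1 (P12_contDiffAt hu hr' y) hmax'
      have hut := P12_time hu hr' y
      have hφt : HasDerivAt (fun q => c + Real.log (Real.cos (y 0 - s)) - q - σ * q)
          (-1 - σ) r := by
        have h2 := (((hasDerivAt_id r).const_sub (c + Real.log (Real.cos (y 0 - s))))).sub
          ((hasDerivAt_id r).const_mul σ)
        refine h2.congr_deriv ?_
        ring
      have h3 := P12_deriv_nonneg hr (hφt.hasDerivWithinAt.sub hut) htime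
      linarith
  have := key x hx t ht
  linarith

end Pool.Agent.GR
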